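import Pool.Agent.H40.JsRay

set_option autoImplicit false

namespace Pool.Agent.Results.MP_5f3c77_lc.UnionFails

open Set Filter OnePoint Topology
open Pool.Agent.H40.Bspt Pool.Agent.H40.Jz Pool.Agent.H40.Js Pool.Agent.H40.Js.Ray

def ZEmb {M : Type} {E : M → M → Prop} (ℛ : Reals E) (S X T : M) : Prop :=
  ∀ Z, ZeroSet ℛ S T Z → ∃ W, ZeroSet ℛ X T W ∧ ∀ x, E x Z ↔ E x W ∧ E x S

theorem result : ∃ (M : Type) (E : M → M → Prop), IsZF E ∧
    ∃ (ℛ : Reals E) (Y T X : M) (S : Om E → M),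
      IsTop E Y T ∧ Sub E X Y ∧ Tychonoff ℛ X T ∧ Covers E S X ∧
        (∀ n, Realcompact ℛ (S n) T ∧ ZEmb ℛ (S n) X T) ∧ ¬ Realcompact ℛ X T := by
  obtain ⟨J⟩ := ex_js fx
  refine ⟨J.M, J.E, J.zf, J.reals, J.sA unA, J.T, J.sA X, _, J.isTop, J.subA_iff.2 (subset_univ _),
    J.tych sb _, covers J, fun n => ⟨J.rc_of_compact sb (K_closed _).isCompact, ?_⟩,
    J.not_rc sb bad⟩
  generalize J.omE.symm n = n
  intro Z hZ
  obtain ⟨z, f, rfl, h1, -, h2, h3⟩ := J.zero_el sb hZ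
  refine ⟨J.sA ⟨r n ⁻¹' z.1 ∩ X.1, sym_inter ((fixK n).mono fun g hg x => by simp [r_inv hg]) X.2⟩,
    J.zero_of sb (f := f ∘ r n) (h1.comp (r_cont n).continuousOn fun x _ => r_mem n x)
      ((fixK n).mono fun g hg x _ => congrArg f (r_inv hg x)) inter_subset_right
      fun x hx => (and_iff_left hx).trans (h3 _ (r_mem n x)), fun x => ⟨fun h => ?_, fun h => ?_⟩⟩
  · obtain ⟨x, hx, rfl⟩ := J.elA h
    exact ⟨J.memA.2 ⟨by rwa [mem_preimage, r_eq (h2 hx)], KX n (h2 hx)⟩, J.memA.2 (h2 hx)⟩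
  · obtain ⟨x, hx, rfl⟩ := J.elA h.2
    have := (J.memA.1 h.1).1
    rw [mem_preimage, r_eq hx] at this
    exact J.memA.2 this

end Pool.Agent.Results.MP_5f3c77_lc.UnionFails
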